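import Mathlib
import Pool.Agent.H12.GJ.Defs

/-!
# Dynamics of the sequence `hP, gP, gP, …` (part D of S06164)
-/

set_option autoImplicit false

namespace Pool.Agent.H12.GJ

open Polynomial Set

/-- the cubic `g` on `ℂ` -/
noncomputable def gC (z : ℂ) : ℂ := -100 * (z ^ 3 - 3 * z) - 572 / 5

/-- the cubic `h` on `ℂ` -/
noncomputable def hC (z : ℂ) : ℂ := 17 / 20 * (z ^ 3 - 3 * z) - 1 / 5

lemma gP_eval (z : ℂ) : gP.eval z = gC z := by
  simp [gP, gC]

lemma hP_eval (z : ℂ) : hP.eval z = hC z := by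
  simp [hP, hC]

lemma gC_ofReal (x : ℝ) : gC (x : ℂ) = ((gr x : ℝ) : ℂ) := by
  simp [gC, gr]

lemma hC_ofReal (x : ℝ) : hC (x : ℂ) = ((hr x : ℝ) : ℂ) := by
  simp [hC, hr]

lemma Fs_succ (n : ℕ) (z : ℂ) : Fs (n + 1) z = gC^[n] (hC z) := by
  induction n with
  | zero => simp [Fs, fs, hP_eval]
  | succ n ih =>
    rw [Fs, ih, Function.iterate_succ_apply']
    simp [fs, gP_eval]

lemma gC_iter_ofReal (n : ℕ) (x : ℝ) : gC^[n] (x : ℂ) = ((gr^[n] x : ℝ) : ℂ) := by
  induction n with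
  | zero => simp
  | succ n ih => rw [Function.iterate_succ_apply', ih, gC_ofReal, Function.iterate_succ_apply']

lemma continuous_gr : Continuous gr := by unfold gr; fun_prop

lemma continuous_hr : Continuous hr := by unfold hr; fun_prop

/-- `g - y` factors over three separated real points of the interval, for `y` in the interval -/
lemma g_factor {y : ℝ} (hy : y ∈ Icc (-19 / 10 : ℝ) (3 / 2)) :
    ∃ r1 ∈ Icc (149 / 100 : ℝ) (3 / 2), ∃ r2 ∈ Icc (39 / 100 : ℝ) (41 / 100),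
      ∃ r3 ∈ Icc (-19 / 10 : ℝ) (-189 / 100),
      ∀ z : ℂ, gC z - (y : ℂ) = -100 * ((z - r1) * (z - r2) * (z - r3)) := by
  obtain ⟨hy1, hy2⟩ := hy
  have c1 : ContinuousOn gr (Icc (149 / 100 : ℝ) (3 / 2)) := continuous_gr.continuousOn
  have c2 : ContinuousOn gr (Icc (39 / 100 : ℝ) (41 / 100)) := continuous_gr.continuousOn
  have c3 : ContinuousOn gr (Icc (-19 / 10 : ℝ) (-189 / 100)) := continuous_gr.continuousOn
  have i1 := intermediate_value_Icc' (by norm_num) c1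
  have i2 := intermediate_value_Icc (by norm_num) c2
  have i3 := intermediate_value_Icc' (by norm_num) c3
  obtain ⟨r1, h1, e1⟩ := i1 (show y ∈ Icc (gr (3 / 2)) (gr (149 / 100)) from
    ⟨by unfold gr; norm_num; linarith, by unfold gr; norm_num; linarith⟩)
  obtain ⟨r2, h2, e2⟩ := i2 (show y ∈ Icc (gr (39 / 100)) (gr (41 / 100)) from
    ⟨by unfold gr; norm_num; linarith, by unfold gr; norm_num; linarith⟩)
  obtain ⟨r3, h3, e3⟩ := i3 (show y ∈ Icc (gr (-189 / 100)) (gr (-19 / 10)) from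
    ⟨by unfold gr; norm_num; linarith, by unfold gr; norm_num; linarith⟩)
  refine ⟨r1, h1, r2, h2, r3, h3, fun z => ?_⟩
  unfold gr at e1 e2 e3
  obtain ⟨h11, h12⟩ := h1
  obtain ⟨h21, h22⟩ := h2
  obtain ⟨h31, h32⟩ := h3
  have q12 : r1 ^ 2 + r1 * r2 + r2 ^ 2 = 3 := by
    have : (r1 - r2) * (r1 ^ 2 + r1 * r2 + r2 ^ 2 - 3) = 0 := by linarith
    rcases mul_eq_zero.1 this with h | h
    · linarith
    · linarith
  have q13 : r1 ^ 2 + r1 * r3 + r3 ^ 2 = 3 := by
    have : (r1 - r3) * (r1 ^ 2 + r1 * r3 + r3 ^ 2 - 3) = 0 := by linarith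
    rcases mul_eq_zero.1 this with h | h
    · linarith
    · linarith
  have s : r1 + r2 + r3 = 0 := by
    have : (r2 - r3) * (r1 + r2 + r3) = 0 := by linarith
    rcases mul_eq_zero.1 this with h | h
    · linarith
    · linarith
  have hr3 : r3 = -r1 - r2 := by linarith
  have hy' : y = -100 * (r1 ^ 3 - 3 * r1) - 572 / 5 := e1.symm
  have q12' : (r1 : ℂ) ^ 2 + r1 * r2 + r2 ^ 2 = 3 := by exact_mod_cast q12
  rw [hr3, hy']
  unfold gC
  push_cast
  linear_combination (-(100 * z - 100 * (r1 : ℂ))) * q12'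

/-- the interval as a subset of `ℂ` -/
def IC : Set ℂ := Complex.ofReal '' Icc (-19 / 10 : ℝ) (3 / 2)

lemma IC_compact : IsCompact IC := isCompact_Icc.image Complex.continuous_ofReal

lemma IC_nonempty : IC.Nonempty := ⟨_, ⟨0, by norm_num, rfl⟩⟩

lemma expand (z : ℂ) : 25 * Metric.infDist z IC ≤ Metric.infDist (gC z) IC := by
  obtain ⟨w, hw, hwd⟩ := IC_compact.exists_infDist_eq_dist IC_nonempty (gC z)
  obtain ⟨y, hy, rfl⟩ := hw
  rw [hwd]
  obtain ⟨r1, h1, r2, h2, r3, h3, hf⟩ := g_factor hy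
  rw [dist_eq_norm, hf z]
  set D := Metric.infDist z IC with hD
  have hD0 : 0 ≤ D := Metric.infDist_nonneg
  have m1 : (r1 : ℂ) ∈ IC := ⟨r1, ⟨by linarith [h1.1], h1.2⟩, rfl⟩
  have m2 : (r2 : ℂ) ∈ IC := ⟨r2, ⟨by linarith [h2.1], by linarith [h2.2]⟩, rfl⟩
  have m3 : (r3 : ℂ) ∈ IC := ⟨r3, ⟨h3.1, by linarith [h3.2]⟩, rfl⟩
  have d1 : D ≤ ‖z - r1‖ := by
    rw [← dist_eq_norm]; exact Metric.infDist_le_dist_of_mem m1
  have d2 : D ≤ ‖z - r2‖ := by
    rw [← dist_eq_norm]; exact Metric.infDist_le_dist_of_mem m2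
  have d3 : D ≤ ‖z - r3‖ := by
    rw [← dist_eq_norm]; exact Metric.infDist_le_dist_of_mem m3
  have n12 : 1 ≤ ‖z - r1‖ + ‖z - r2‖ := by
    have : ‖((r1 : ℂ) - r2)‖ ≤ ‖z - r1‖ + ‖z - r2‖ := by
      calc ‖((r1 : ℂ) - r2)‖ = ‖(z - r2) - (z - r1)‖ := by congr 1; ring
        _ ≤ _ := by rw [add_comm]; exact norm_sub_le _ _
    have h : ‖((r1 : ℂ) - r2)‖ = |r1 - r2| := by
      rw [← Complex.ofReal_sub, Complex.norm_real, Real.norm_eq_abs]
    rw [h, abs_of_nonneg (by linarith [h1.1, h2.2])] at this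
    linarith [h1.1, h2.2]
  have n23 : 1 ≤ ‖z - r2‖ + ‖z - r3‖ := by
    have : ‖((r2 : ℂ) - r3)‖ ≤ ‖z - r2‖ + ‖z - r3‖ := by
      calc ‖((r2 : ℂ) - r3)‖ = ‖(z - r3) - (z - r2)‖ := by congr 1; ring
        _ ≤ _ := by rw [add_comm]; exact norm_sub_le _ _
    have h : ‖((r2 : ℂ) - r3)‖ = |r2 - r3| := by
      rw [← Complex.ofReal_sub, Complex.norm_real, Real.norm_eq_abs]
    rw [h, abs_of_nonneg (by linarith [h2.1, h3.2])] at this
    linarith [h2.1, h3.2]
  have n13 : 1 ≤ ‖z - r1‖ + ‖z - r3‖ := by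
    have : ‖((r1 : ℂ) - r3)‖ ≤ ‖z - r1‖ + ‖z - r3‖ := by
      calc ‖((r1 : ℂ) - r3)‖ = ‖(z - r3) - (z - r1)‖ := by congr 1; ring
        _ ≤ _ := by rw [add_comm]; exact norm_sub_le _ _
    have h : ‖((r1 : ℂ) - r3)‖ = |r1 - r3| := by
      rw [← Complex.ofReal_sub, Complex.norm_real, Real.norm_eq_abs]
    rw [h, abs_of_nonneg (by linarith [h1.1, h3.2])] at this
    linarith [h1.1, h3.2]
  rw [norm_mul, norm_mul, norm_mul]
  have h100 : ‖(-100 : ℂ)‖ = 100 := by simp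
  rw [h100]
  set a := ‖z - r1‖
  set b := ‖z - r2‖
  set c := ‖z - r3‖
  have ha : 0 ≤ a := norm_nonneg _
  have hb : 0 ≤ b := norm_nonneg _
  have hc : 0 ≤ c := norm_nonneg _
  have key : ∀ p q r : ℝ, D ≤ p → 1 / 2 ≤ q → 1 / 2 ≤ r → 25 * D ≤ 100 * (p * q * r) := by
    intro p q r hp hq hr
    have h1 : (1 / 2) * (1 / 2) ≤ q * r := mul_le_mul hq hr (by norm_num) (by linarith)
    have h2 : D * (1 / 4) ≤ p * (q * r) :=
      mul_le_mul hp (by linarith) (by norm_num) (by linarith)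
    nlinarith
  rcases lt_or_ge a (1 / 2) with ha' | ha'
  · exact key a b c d1 (by linarith) (by linarith)
  · rcases lt_or_ge b (1 / 2) with hb' | hb'
    · have := key b a c d2 (by linarith) (by linarith)
      linarith [this, show b * a * c = a * b * c by ring]
    · have := key c a b d3 (by linarith) (by linarith)
      linarith [this, show c * a * b = a * b * c by ring]

lemma expand_iter (n : ℕ) (z : ℂ) :
    25 ^ n * Metric.infDist z IC ≤ Metric.infDist (gC^[n] z) IC := by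
  induction n with
  | zero => simp
  | succ n ih =>
    rw [Function.iterate_succ_apply']
    calc (25 : ℝ) ^ (n + 1) * Metric.infDist z IC = 25 * (25 ^ n * Metric.infDist z IC) := by ring
      _ ≤ 25 * Metric.infDist (gC^[n] z) IC := by gcongr
      _ ≤ _ := expand _

lemma mem_IC_of_bdd {z : ℂ} {M : ℝ} (h : ∀ n, ‖gC^[n] z‖ ≤ M) : z ∈ IC := by
  have h0 : Metric.infDist z IC = 0 := by
    by_contra hne
    have hpos : 0 < Metric.infDist z IC := lt_of_le_of_ne Metric.infDist_nonneg (Ne.symm hne)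
    obtain ⟨n, hn⟩ := pow_unbounded_of_one_lt (M / Metric.infDist z IC) (show (1 : ℝ) < 25 by norm_num)
    have h1 := expand_iter n z
    have h2 : Metric.infDist (gC^[n] z) IC ≤ ‖gC^[n] z‖ := by
      have : (0 : ℂ) ∈ IC := ⟨0, by norm_num, by simp⟩
      have := Metric.infDist_le_dist_of_mem (x := gC^[n] z) this
      rwa [dist_zero_right] at this
    rw [div_lt_iff₀ hpos] at hn
    linarith [h n]
  exact (IC_compact.isClosed.mem_iff_infDist_zero IC_nonempty).2 h0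

lemma mem_Kg_of_bdd {z : ℂ} {M : ℝ} (h : ∀ n, ‖gC^[n] z‖ ≤ M) :
    ∃ x ∈ Kg, (x : ℂ) = z := by
  obtain ⟨x, hx, rfl⟩ := mem_IC_of_bdd h
  refine ⟨x, fun n => ?_, rfl⟩
  have h1 : gC^[n] (x : ℂ) ∈ IC := by
    refine mem_IC_of_bdd (M := M) fun k => ?_
    rw [← Function.iterate_add_apply]
    exact h _
  rw [gC_iter_ofReal] at h1
  obtain ⟨y, hy, hxy⟩ := h1
  rw [Complex.ofReal_inj] at hxy
  rwa [← hxy]

lemma Kg_sub : Kg ⊆ Icc (-19 / 10 : ℝ) (3 / 2) := fun _ hx => by simpa using hx 0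

lemma gr_mem_Kg {x : ℝ} (hx : x ∈ Kg) : gr x ∈ Kg := by
  intro n
  have := hx (n + 1)
  rwa [Function.iterate_succ_apply] at this

/-- `h` maps only real points of `[-2,2]` into the interval -/
lemma hC_real {z : ℂ} {y : ℝ} (hy : y ∈ Icc (-19 / 10 : ℝ) (3 / 2)) (h : hC z = (y : ℂ)) :
    z.im = 0 ∧ z.re ∈ Icc (-2 : ℝ) 2 := by
  obtain ⟨hy1, hy2⟩ := hy
  have hre := congrArg Complex.re h
  have him := congrArg Complex.im h
  have hz : z = ⟨z.re, z.im⟩ := rfl
  set a := z.re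
  set b := z.im
  have e : z ^ 3 - 3 * z = ⟨a ^ 3 - 3 * a * b ^ 2 - 3 * a, 3 * a ^ 2 * b - b ^ 3 - 3 * b⟩ := by
    rw [hz]
    apply Complex.ext
    · simp [pow_succ, Complex.mul_re, Complex.mul_im]; ring
    · simp [pow_succ, Complex.mul_re, Complex.mul_im]; ring
  have e2 : hC z = ⟨17 / 20 * (a ^ 3 - 3 * a * b ^ 2 - 3 * a) - 1 / 5,
      17 / 20 * (3 * a ^ 2 * b - b ^ 3 - 3 * b)⟩ := by
    unfold hC
    rw [e]
    have h1 : (17 / 20 : ℂ) = ((17 / 20 : ℝ) : ℂ) := by push_cast; rfl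
    have h2 : (1 / 5 : ℂ) = ((1 / 5 : ℝ) : ℂ) := by push_cast; rfl
    rw [h1, h2]
    apply Complex.ext
    · rw [Complex.sub_re, Complex.re_ofReal_mul, Complex.ofReal_re]
    · rw [Complex.sub_im, Complex.im_ofReal_mul, Complex.ofReal_im, sub_zero]
  rw [e2] at hre him
  simp only [Complex.ofReal_re, Complex.ofReal_im] at hre him
  have hb : b * (3 * a ^ 2 - b ^ 2 - 3) = 0 := by nlinarith
  have hb0 : b = 0 := by
    rcases mul_eq_zero.1 hb with h0 | h0
    · exact h0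
    · have hb2 : b ^ 2 = 3 * a ^ 2 - 3 := by linarith
      have ha1 : 1 ≤ a ^ 2 := by nlinarith [sq_nonneg b]
      have hu : (a * (6 - 8 * a ^ 2)) = a ^ 3 - 3 * a * b ^ 2 - 3 * a := by
        rw [hb2]
        ring
      have hu2 : |a * (6 - 8 * a ^ 2)| ≤ 2 := by
        rw [hu, abs_le]; constructor <;> linarith
      have hsq : (a * (6 - 8 * a ^ 2)) ^ 2 ≤ 4 := by
        have := abs_le.1 hu2
        nlinarith [this.1, this.2]
      have h3 : a ^ 2 ≤ 1 := by
        by_contra hcon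
        push Not at hcon
        have : 4 < a ^ 2 * (6 - 8 * a ^ 2) ^ 2 := by
          have h4 : (2 : ℝ) < 8 * a ^ 2 - 6 := by linarith
          have h5 : 4 < (8 * a ^ 2 - 6) ^ 2 := by nlinarith
          nlinarith
        nlinarith [mul_pow a (6 - 8 * a ^ 2) 2]
      have h4 : b ^ 2 ≤ 0 := by rw [hb2]; linarith
      exact pow_eq_zero_iff (two_ne_zero) |>.1 (le_antisymm h4 (sq_nonneg b))
  refine ⟨hb0, ?_⟩
  rw [hb0] at hre
  have hlo : -2 ≤ a ^ 3 - 3 * a := by nlinarith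
  have hhi : a ^ 3 - 3 * a ≤ 2 := by nlinarith
  constructor
  · by_contra hcon
    push Not at hcon
    nlinarith [mul_pos (show 0 < -2 - a by linarith) (show 0 < -2 - a by linarith), mul_pos (mul_pos (show 0 < -2 - a by linarith) (show 0 < -2 - a by linarith)) (show 0 < -2 - a by linarith)]
  · by_contra hcon
    push Not at hcon
    nlinarith [mul_pos (show 0 < a - 2 by linarith) (show 0 < a - 2 by linarith), mul_pos (mul_pos (show 0 < a - 2 by linarith) (show 0 < a - 2 by linarith)) (show 0 < a - 2 by linarith)]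

lemma hr_sub {x : ℝ} (h : hr x ∈ Icc (-19 / 10 : ℝ) (3 / 2)) : x ∈ Icc (-2 : ℝ) 2 := by
  have := hC_real (z := (x : ℂ)) h (hC_ofReal x)
  simpa using this.2

theorem K0_sub : K0 ⊆ Set.Icc (-2) 2 := fun _ hx => hr_sub (Kg_sub hx)

theorem Kg_compact : IsCompact Kg := by
  refine isCompact_Icc.of_isClosed_subset ?_ Kg_sub
  have : Kg = ⋂ n : ℕ, (gr^[n]) ⁻¹' Icc (-19 / 10 : ℝ) (3 / 2) := by
    ext x; simp [Kg]
  rw [this]
  exact isClosed_iInter fun n => isClosed_Icc.preimage (continuous_gr.iterate n)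

theorem K0_compact : IsCompact K0 := by
  refine isCompact_Icc.of_isClosed_subset ?_ K0_sub
  exact Kg_compact.isClosed.preimage continuous_hr

lemma filled_eq : {z : ℂ | ∃ M : ℝ, ∀ n, ‖Fs n z‖ ≤ M} = Complex.ofReal '' K0 := by
  ext z
  simp only [Set.mem_ofPred_eq, mem_image]
  constructor
  · rintro ⟨M, hM⟩
    have h1 : ∀ n, ‖gC^[n] (hC z)‖ ≤ M := fun n => by rw [← Fs_succ]; exact hM _
    obtain ⟨y, hy, hyz⟩ := mem_Kg_of_bdd h1
    obtain ⟨him, hre⟩ := hC_real (Kg_sub hy) hyz.symm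
    refine ⟨z.re, ?_, ?_⟩
    · show hr z.re ∈ Kg
      have hz : z = ((z.re : ℝ) : ℂ) := by
        apply Complex.ext
        · simp
        · simpa using him
      have : ((hr z.re : ℝ) : ℂ) = ((y : ℝ) : ℂ) := by
        rw [← hC_ofReal, ← hz, hyz]
      rw [Complex.ofReal_inj] at this
      rwa [this]
    · apply Complex.ext
      · simp
      · simpa using him.symm
  · rintro ⟨x, hx, rfl⟩
    refine ⟨2, fun n => ?_⟩
    cases n with
    | zero =>
      rw [Fs, Complex.norm_real, Real.norm_eq_abs, abs_le]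
      exact ⟨(K0_sub hx).1, (K0_sub hx).2⟩
    | succ n =>
      rw [Fs_succ, hC_ofReal, gC_iter_ofReal, Complex.norm_real, Real.norm_eq_abs, abs_le]
      have := hx n
      exact ⟨by linarith [this.1], by linarith [this.2]⟩

theorem JS_eq : JS = Complex.ofReal '' K0 := by
  unfold JS
  rw [filled_eq]
  have hc : IsClosed (Complex.ofReal '' K0) :=
    (K0_compact.image Complex.continuous_ofReal).isClosed
  rw [hc.frontier_eq]
  have : interior (Complex.ofReal '' K0) = ∅ := by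
    rw [Set.eq_empty_iff_forall_notMem]
    intro z hz
    rw [mem_interior_iff_mem_nhds, Metric.mem_nhds_iff] at hz
    obtain ⟨ε, hε, hb⟩ := hz
    have h1 : z ∈ Complex.ofReal '' K0 := hb (Metric.mem_ball_self hε)
    have h2 : z + ((ε / 2 : ℝ) : ℂ) * Complex.I ∈ Complex.ofReal '' K0 := by
      apply hb
      rw [Metric.mem_ball, dist_eq_norm, add_sub_cancel_left, norm_mul, Complex.norm_I, mul_one,
        Complex.norm_real, Real.norm_eq_abs, abs_of_pos (by linarith)]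
      linarith
    obtain ⟨x, _, rfl⟩ := h1
    obtain ⟨y, _, hy⟩ := h2
    have := congrArg Complex.im hy
    simp at this
    linarith
  rw [this, sdiff_empty]

theorem JS_subset : JS ⊆ {z : ℂ | z.im = 0} := by
  rw [JS_eq]
  rintro _ ⟨x, _, rfl⟩
  simp

/-! ### Total disconnectedness -/

lemma no_interval_Kg_aux {a b : ℝ} (hab : a < b) (h : Icc a b ⊆ Kg) :
    ∃ a' b', a' < b' ∧ Icc a' b' ⊆ Kg ∧ 2 * (b - a) ≤ b' - a' := by
  have ha : a ∈ Kg := h ⟨le_rfl, hab.le⟩
  have hb : b ∈ Kg := h ⟨hab.le, le_rfl⟩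
  have hpiece : ∀ x ∈ Kg, x ∈ Icc (149 / 100 : ℝ) (3 / 2) ∨ x ∈ Icc (39 / 100 : ℝ) (41 / 100) ∨
      x ∈ Icc (-19 / 10 : ℝ) (-189 / 100) := by
    intro x hx
    have h1 := Kg_sub (gr_mem_Kg hx)
    obtain ⟨r1, hr1, r2, hr2, r3, hr3, hf⟩ := g_factor h1
    have h2 := hf (x : ℂ)
    rw [gC_ofReal, sub_self] at h2
    have h3 : (x - r1) * (x - r2) * (x - r3) = 0 := by
      have : (((x - r1) * (x - r2) * (x - r3) : ℝ) : ℂ) = 0 := by
        push_cast
        have h100 : (-100 : ℂ) ≠ 0 := by norm_num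
        exact (mul_eq_zero.1 h2.symm).resolve_left h100
      exact_mod_cast this
    rcases mul_eq_zero.1 h3 with h4 | h4
    · rcases mul_eq_zero.1 h4 with h5 | h5
      · left; rwa [show x = r1 by linarith]
      · right; left; rwa [show x = r2 by linarith]
    · right; right; rwa [show x = r3 by linarith]
  have n0 : (0 : ℝ) ∉ Kg := fun h0 => by
    rcases hpiece 0 h0 with h | h | h <;> obtain ⟨h1, h2⟩ := h <;> linarith
  have n1 : (1 : ℝ) ∉ Kg := fun h0 => by
    rcases hpiece 1 h0 with h | h | h <;> obtain ⟨h1, h2⟩ := h <;> linarith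
  have k0 : b < 0 ∨ 0 < a := by
    by_contra hcon
    push Not at hcon
    exact n0 (h ⟨hcon.2, hcon.1⟩)
  have k1 : b < 1 ∨ 1 < a := by
    by_contra hcon
    push Not at hcon
    exact n1 (h ⟨hcon.2, hcon.1⟩)
  have hexp : 2 * (b - a) ≤ |gr b - gr a| := by
    have e : gr b - gr a = (b - a) * (100 * (3 - (a ^ 2 + a * b + b ^ 2))) := by
      unfold gr; ring
    rw [e, abs_mul, abs_of_pos (show 0 < b - a by linarith), mul_comm]
    apply mul_le_mul_of_nonneg_left _ (by linarith)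
    rcases hpiece a ha with ⟨a1, a2⟩ | ⟨a1, a2⟩ | ⟨a1, a2⟩ <;>
    rcases hpiece b hb with ⟨b1, b2⟩ | ⟨b1, b2⟩ | ⟨b1, b2⟩
    · rw [abs_of_neg (by nlinarith)]; nlinarith
    · linarith
    · linarith
    · rcases k1 with k | k <;> linarith
    · rw [abs_of_pos (by nlinarith)]; nlinarith
    · linarith
    · rcases k0 with k | k <;> linarith
    · rcases k0 with k | k <;> linarith
    · rw [abs_of_neg (by nlinarith)]; nlinarith
  have himg : gr '' Icc a b ⊆ Kg := by
    rintro _ ⟨x, hx, rfl⟩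
    exact gr_mem_Kg (h hx)
  rcases le_total (gr a) (gr b) with hle | hle
  · refine ⟨gr a, gr b, ?_, ?_, ?_⟩
    · rw [abs_of_nonneg (by linarith)] at hexp; linarith
    · exact (intermediate_value_Icc hab.le continuous_gr.continuousOn).trans himg
    · rwa [abs_of_nonneg (by linarith)] at hexp
  · refine ⟨gr b, gr a, ?_, ?_, ?_⟩
    · rw [abs_of_nonpos (by linarith)] at hexp; linarith
    · exact (intermediate_value_Icc' hab.le continuous_gr.continuousOn).trans himg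
    · rw [abs_of_nonpos (by linarith)] at hexp; linarith

lemma no_interval_Kg {a b : ℝ} (hab : a < b) : ¬ Icc a b ⊆ Kg := by
  intro h
  have key : ∀ n : ℕ, ∃ a' b', a' < b' ∧ Icc a' b' ⊆ Kg ∧ 2 ^ n * (b - a) ≤ b' - a' := by
    intro n
    induction n with
    | zero => exact ⟨a, b, hab, h, by simp⟩
    | succ n ih =>
      obtain ⟨a', b', h1, h2, h3⟩ := ih
      obtain ⟨a'', b'', h4, h5, h6⟩ := no_interval_Kg_aux h1 h2
      exact ⟨a'', b'', h4, h5, by rw [pow_succ]; linarith⟩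
  obtain ⟨n, hn⟩ := pow_unbounded_of_one_lt (4 / (b - a)) (show (1 : ℝ) < 2 by norm_num)
  obtain ⟨a', b', h1, h2, h3⟩ := key n
  rw [div_lt_iff₀ (by linarith)] at hn
  have ha := Kg_sub (h2 ⟨le_rfl, h1.le⟩)
  have hb := Kg_sub (h2 ⟨h1.le, le_rfl⟩)
  linarith [ha.1, hb.2]

lemma Kg_preconn {S : Set ℝ} (hS : S ⊆ Kg) (hp : IsPreconnected S) : S.Subsingleton := by
  intro a ha b hb
  by_contra hne
  rcases lt_or_gt_of_ne hne with h | h
  · exact no_interval_Kg h ((hp.Icc_subset ha hb).trans hS)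
  · exact no_interval_Kg h ((hp.Icc_subset hb ha).trans hS)

lemma no_interval_K0 {a b : ℝ} (hab : a < b) : ¬ Icc a b ⊆ K0 := by
  intro h
  have h1 : hr '' Icc a b ⊆ Kg := by
    rintro _ ⟨x, hx, rfl⟩
    exact h hx
  have h2 : IsPreconnected (hr '' Icc a b) := isPreconnected_Icc.image _ continuous_hr.continuousOn
  have h3 := Kg_preconn h1 h2
  have key : ∀ x ∈ Icc a b, x ^ 3 - 3 * x = a ^ 3 - 3 * a := by
    intro x hx
    have := h3 ⟨x, hx, rfl⟩ ⟨a, ⟨le_rfl, hab.le⟩, rfl⟩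
    unfold hr at this
    linarith
  have e1 := key b ⟨hab.le, le_rfl⟩
  have e2 := key ((a + b) / 2) ⟨by linarith, by linarith⟩
  have e3 := key ((3 * a + b) / 4) ⟨by linarith, by linarith⟩
  have f1 : b ^ 2 + a * b + a ^ 2 = 3 := by
    have : (b - a) * (b ^ 2 + a * b + a ^ 2 - 3) = 0 := by linarith
    rcases mul_eq_zero.1 this with h | h <;> linarith
  have f2 : ((a + b) / 2) ^ 2 + a * ((a + b) / 2) + a ^ 2 = 3 := by
    have : (b - a) * (((a + b) / 2) ^ 2 + a * ((a + b) / 2) + a ^ 2 - 3) = 0 := by linarith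
    rcases mul_eq_zero.1 this with h | h <;> linarith
  have f3 : ((3 * a + b) / 4) ^ 2 + a * ((3 * a + b) / 4) + a ^ 2 = 3 := by
    have : (b - a) * (((3 * a + b) / 4) ^ 2 + a * ((3 * a + b) / 4) + a ^ 2 - 3) = 0 := by linarith
    rcases mul_eq_zero.1 this with h | h <;> linarith
  have g1 : b + (a + b) / 2 + a = 0 := by
    have : (b - a) * (b + (a + b) / 2 + a) = 0 := by linarith
    rcases mul_eq_zero.1 this with h | h <;> linarith
  have g2 : b + (3 * a + b) / 4 + a = 0 := by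
    have : (b - a) * (b + (3 * a + b) / 4 + a) = 0 := by linarith
    rcases mul_eq_zero.1 this with h | h <;> linarith
  linarith

lemma K0_preconn {S : Set ℝ} (hS : S ⊆ K0) (hp : IsPreconnected S) : S.Subsingleton := by
  intro a ha b hb
  by_contra hne
  rcases lt_or_gt_of_ne hne with h | h
  · exact no_interval_K0 h ((hp.Icc_subset ha hb).trans hS)
  · exact no_interval_K0 h ((hp.Icc_subset hb ha).trans hS)

theorem JS_td : IsTotallyDisconnected JS := by
  intro S hS hp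
  have h1 : IsPreconnected (Complex.re '' S) := hp.image _ Complex.continuous_re.continuousOn
  have h2 : Complex.re '' S ⊆ K0 := by
    rintro _ ⟨z, hz, rfl⟩
    have := hS hz
    rw [JS_eq] at this
    obtain ⟨x, hx, rfl⟩ := this
    simpa using hx
  have h3 := K0_preconn h2 h1
  intro z hz w hw
  apply Complex.ext
  · exact h3 ⟨z, hz, rfl⟩ ⟨w, hw, rfl⟩
  · rw [JS_subset (hS hz), JS_subset (hS hw)]

end Pool.Agent.H12.GJ
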